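import Mathlib
import Pool.Agent.H97.ICB.Fj1
import Pool.Agent.H99.NR.Asm

/-!
# [H97 ICX Tw] the sequence `c(n) - 3 c(n/2) + 2 c(n/4)` (THEOREM IC, MP_8e9775_nt, polar case of weight 1)

All statements are elementary. `tw c` are the coefficients of `(1 - 2^(-s)) (1 - 2^(1-s)) ∑ c(n) n^(-s)`.
`tw_int`: sums of integral elements, `n/2 ≥ 1` if `2 ∣ n`, `n ≥ 1`. `tw_sub`: constant `6` times the (nonnegative) constant
for `A`, `exp (δ (n/2)) ≤ exp (δ n)`. `tw_polG`, `tw_ram`: the same with powers (for `n ≥ 1`; the constant of the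
hypothesis is nonnegative by `n = 1`). `tw_acl`: both sides are `σ(..)`; with `k = 1` the factor
`n ^ (-(((1:ℕ):ℂ) - 1)/2)` is `n ^ 0 = 1`.
-/

set_option autoImplicit false

namespace Pool.Agent.H97.ICX

open Complex NumberField Pool.Agent.H11.Selberg Pool.Agent.H11.SC Pool.Agent.H13.IC
open Pool.Agent.H97.ICB Pool.Agent.H99.NR

/-- the twisted sequence -/
def tw {R : Type} [CommRing R] (c : ℕ → R) (n : ℕ) : R :=
  c n - 3 * (if 2 ∣ n then c (n / 2) else 0) + 2 * (if 4 ∣ n then c (n / 4) else 0)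

theorem tw_map {R T : Type} [CommRing R] [CommRing T] (f : R →+* T) (c : ℕ → R) (n : ℕ) :
    f (tw c n) = tw (fun n => f (c n)) n := by
  unfold tw
  split_ifs <;> simp [map_ofNat]

theorem tw_odd {R : Type} [CommRing R] (c : ℕ → R) (n : ℕ) (h : ¬ 2 ∣ n) : tw c n = c n := by
  have h4 : ¬ 4 ∣ n := fun h4 => h (dvd_trans (by norm_num) h4)
  unfold tw
  rw [if_neg h, if_neg h4]
  ring

theorem tw_int {L : Type} [Field L] [NumberField L] (A : ℕ → L) (m : ℕ)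
    (hA : ∀ n, 1 ≤ n → IsIntegral ℤ ((m : L) * A n)) :
    ∀ n, 1 ≤ n → IsIntegral ℤ ((m : L) * tw A n) := by
  intro n hn
  have e : (m : L) * tw A n = (m : L) * A n - 3 * (if 2 ∣ n then (m : L) * A (n / 2) else 0)
      + 2 * (if 4 ∣ n then (m : L) * A (n / 4) else 0) := by
    unfold tw
    split_ifs <;> ring
  have h3 : IsIntegral ℤ (3 : L) := by
    simpa using (isIntegral_algebraMap (R := ℤ) (A := L) (x := 3))
  have h2 : IsIntegral ℤ (2 : L) := by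
    simpa using (isIntegral_algebraMap (R := ℤ) (A := L) (x := 2))
  rw [e]
  refine ((hA n hn).sub (h3.mul ?_)).add (h2.mul ?_)
  · split_ifs with h
    · exact hA _ (Nat.div_pos (Nat.le_of_dvd hn h) (by norm_num))
    · exact isIntegral_zero
  · split_ifs with h
    · exact hA _ (Nat.div_pos (Nat.le_of_dvd hn h) (by norm_num))
    · exact isIntegral_zero

/-- the bound for one argument -/
theorem tw_norm (c : ℕ → ℂ) (n : ℕ) (B : ℝ) (h0 : ‖c n‖ ≤ B) (h2 : 2 ∣ n → ‖c (n / 2)‖ ≤ B)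
    (h4 : 4 ∣ n → ‖c (n / 4)‖ ≤ B) : ‖tw c n‖ ≤ 6 * B := by
  have hB : 0 ≤ B := (norm_nonneg _).trans h0
  have e2 : ‖(if 2 ∣ n then c (n / 2) else 0 : ℂ)‖ ≤ B := by
    split_ifs with h
    · exact h2 h
    · simpa using hB
  have e4 : ‖(if 4 ∣ n then c (n / 4) else 0 : ℂ)‖ ≤ B := by
    split_ifs with h
    · exact h4 h
    · simpa using hB
  unfold tw
  have n3 : ‖(3 : ℂ)‖ = 3 := by simp
  have n2 : ‖(2 : ℂ)‖ = 2 := by simp
  calc ‖c n - 3 * (if 2 ∣ n then c (n / 2) else 0) + 2 * (if 4 ∣ n then c (n / 4) else 0)‖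
      ≤ ‖c n‖ + ‖(3 : ℂ) * (if 2 ∣ n then c (n / 2) else 0)‖
        + ‖(2 : ℂ) * (if 4 ∣ n then c (n / 4) else 0)‖ :=
        (norm_add_le _ _).trans (add_le_add_left (norm_sub_le _ _) _)
    _ = ‖c n‖ + 3 * ‖(if 2 ∣ n then c (n / 2) else 0 : ℂ)‖
        + 2 * ‖(if 4 ∣ n then c (n / 4) else 0 : ℂ)‖ := by rw [norm_mul, norm_mul, n3, n2]
    _ ≤ 6 * B := by linarith

theorem tw_sub {L : Type} [Field L] [NumberField L] (A : ℕ → L) (hs : Sub A) : Sub (tw A) := by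
  intro τ δ hδ
  obtain ⟨C, hC⟩ := hs τ δ hδ
  have hC0 : 0 ≤ C := by
    have h := hC 0
    simp only [Nat.cast_zero, mul_zero, Real.exp_zero, mul_one] at h
    exact (norm_nonneg _).trans h
  refine ⟨6 * C, fun n => ?_⟩
  rw [tw_map, mul_assoc]
  have key : ∀ k : ℕ, k ≤ n → ‖τ (A k)‖ ≤ C * Real.exp (δ * n) := fun k hk =>
    (hC k).trans (mul_le_mul_of_nonneg_left (Real.exp_le_exp.mpr
      (mul_le_mul_of_nonneg_left (Nat.cast_le.mpr hk) hδ.le)) hC0)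
  exact tw_norm _ n _ (key n le_rfl) (fun _ => key _ (Nat.div_le_self _ _))
    (fun _ => key _ (Nat.div_le_self _ _))

theorem tw_polG {L : Type} [Field L] [NumberField L] (A : ℕ → L) (hs : PolG A) : PolG (tw A) := by
  obtain ⟨C, q, hC⟩ := hs
  refine ⟨6 * C, q, fun τ n hn => ?_⟩
  have hC0 : 0 ≤ C := by
    have h := hC τ 1 le_rfl
    simp only [Nat.cast_one, one_pow, mul_one] at h
    exact (norm_nonneg _).trans h
  rw [tw_map, mul_assoc]
  have key : ∀ k : ℕ, 1 ≤ k → k ≤ n → ‖τ (A k)‖ ≤ C * (n : ℝ) ^ q := fun k hk1 hk =>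
    (hC τ k hk1).trans (mul_le_mul_of_nonneg_left
      (pow_le_pow_left₀ (Nat.cast_nonneg _) (Nat.cast_le.mpr hk) _) hC0)
  exact tw_norm _ n _ (key n hn le_rfl)
    (fun h => key _ (Nat.div_pos (Nat.le_of_dvd hn h) (by norm_num)) (Nat.div_le_self _ _))
    (fun h => key _ (Nat.div_pos (Nat.le_of_dvd hn h) (by norm_num)) (Nat.div_le_self _ _))

theorem tw_ram (a : ℕ → ℂ)
    (ha : ∀ δ : ℝ, 0 < δ → ∃ C : ℝ, ∀ n : ℕ, 1 ≤ n → ‖a n‖ ≤ C * (n : ℝ) ^ δ) :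
    ∀ δ : ℝ, 0 < δ → ∃ C : ℝ, ∀ n : ℕ, 1 ≤ n → ‖tw a n‖ ≤ C * (n : ℝ) ^ δ := by
  intro δ hδ
  obtain ⟨C, hC⟩ := ha δ hδ
  have hC0 : 0 ≤ C := by
    have h := hC 1 le_rfl
    simp only [Nat.cast_one, Real.one_rpow, mul_one] at h
    exact (norm_nonneg _).trans h
  refine ⟨6 * C, fun n hn => ?_⟩
  rw [mul_assoc]
  have key : ∀ k : ℕ, 1 ≤ k → k ≤ n → ‖a k‖ ≤ C * (n : ℝ) ^ δ := fun k hk1 hk =>
    (hC k hk1).trans (mul_le_mul_of_nonneg_left
      (Real.rpow_le_rpow (Nat.cast_nonneg _) (Nat.cast_le.mpr hk) hδ.le) hC0)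
  exact tw_norm _ n _ (key n hn le_rfl)
    (fun h => key _ (Nat.div_pos (Nat.le_of_dvd hn h) (by norm_num)) (Nat.div_le_self _ _))
    (fun h => key _ (Nat.div_pos (Nat.le_of_dvd hn h) (by norm_num)) (Nat.div_le_self _ _))

theorem tw_acl {L : Type} [Field L] [NumberField L] (σ : L →+* ℂ) (A : ℕ → L) :
    tw (acl 1 A σ) = acl 1 (tw A) σ := by
  have e : ∀ B : ℕ → L, acl 1 B σ = fun n => σ (B n) := by
    intro B
    funext n
    simp [acl]
  rw [e, e]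
  funext n
  exact (tw_map σ A n).symm

end Pool.Agent.H97.ICX
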