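import Mathlib
import Pool.Agent.H97.ICX.Tw

/-!
# [H97 ICX Tl] the L-series of the twisted sequence (MP_8e9775_nt, weight 1)

`LSeries` of the sequence `n ↦ a(n/2)` on even `n` (0 on odd `n`) is `2^(-s) LSeries a s`
(reindex by `n = 2 m`: `Function.Injective.hasSum_iff`/`hasSum_iff_of_support_subset` with support in the range of
`2 * ·`; `LSeries.term`; `Complex.natCast_mul_natCast_cpow` or `Nat.cast_mul` and `mul_cpow` for naturals), the same
with `4`, `(4:ℂ)^(-s) = (2^(-s))^2`, and linearity (`LSeriesSummable.add`, `LSeries_add`, `.smul` ...);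
`(1 - 2^(-s)) (1 - 2·2^(-s)) = 1 - 3·2^(-s) + 2·(2^(-s))^2`, `2^(1-s) = 2·2^(-s)`.
-/

set_option autoImplicit false

namespace Pool.Agent.H97.ICX

open Complex

private theorem dil_hasSum (a : ℕ → ℂ) {s : ℂ} (h : LSeriesSummable a s) {k : ℕ} (hk : k ≠ 0) :
    LSeriesHasSum (fun n => if k ∣ n then a (n / k) else 0) s ((k : ℂ) ^ (-s) * LSeries a s) := by
  have hinj : Function.Injective fun m : ℕ => k * m := fun x y hxy =>
    Nat.eq_of_mul_eq_mul_left (Nat.pos_of_ne_zero hk) hxy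
  unfold LSeriesHasSum
  rw [← hinj.hasSum_iff]
  · have h1 : (LSeries.term (fun n => if k ∣ n then a (n / k) else 0) s ∘ fun m : ℕ => k * m) =
        fun m => (k : ℂ) ^ (-s) * LSeries.term a s m := by
      funext m
      rcases eq_or_ne m 0 with rfl | hm
      · simp
      · have h2 : k * m ≠ 0 := mul_ne_zero hk hm
        rw [Function.comp_apply, LSeries.term_of_ne_zero h2, LSeries.term_of_ne_zero hm,
          if_pos (dvd_mul_right k m), Nat.mul_div_cancel_left m (Nat.pos_of_ne_zero hk),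
          Nat.cast_mul, Complex.natCast_mul_natCast_cpow, Complex.cpow_neg]
        rw [div_eq_mul_inv, div_eq_mul_inv, mul_inv]
        ring
    rw [h1]
    exact h.hasSum.mul_left _
  · intro n hn
    have h3 : ¬ k ∣ n := by
      rintro ⟨m, rfl⟩
      exact hn ⟨m, rfl⟩
    rcases eq_or_ne n 0 with rfl | hn0
    · exact LSeries.term_zero _ _
    · rw [LSeries.term_of_ne_zero hn0, if_neg h3, zero_div]

theorem tw_L (a : ℕ → ℂ) (h : ∀ s : ℂ, 1 < s.re → LSeriesSummable a s) (s : ℂ) (hs : 1 < s.re) :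
    LSeriesSummable (tw a) s ∧
      LSeries (tw a) s = (1 - (2 : ℂ) ^ (-s)) * (1 - (2 : ℂ) ^ (1 - s)) * LSeries a s := by
  have h0 := h s hs
  have h2 := (dil_hasSum a h0 (k := 2) (by norm_num)).smul (-3)
  have h4 := (dil_hasSum a h0 (k := 4) (by norm_num)).smul 2
  have h1 := (h0.LSeriesHasSum.add h2).add h4
  have e : (a + (-3 : ℂ) • (fun n => if 2 ∣ n then a (n / 2) else 0) +
      (2 : ℂ) • fun n => if 4 ∣ n then a (n / 4) else 0) = tw a := by
    funext n
    simp only [Pi.add_apply, Pi.smul_apply, smul_eq_mul, tw]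
    ring
  rw [e] at h1
  refine ⟨h1.LSeriesSummable, ?_⟩
  rw [h1.LSeries_eq]
  have e2 : (2 : ℂ) ^ (1 - s) = 2 * (2 : ℂ) ^ (-s) := by
    rw [sub_eq_add_neg, Complex.cpow_add _ _ two_ne_zero, Complex.cpow_one]
  have e4 : ((4 : ℕ) : ℂ) ^ (-s) = (2 : ℂ) ^ (-s) * (2 : ℂ) ^ (-s) := by
    have h5 := Complex.natCast_mul_natCast_cpow 2 2 (-s)
    rw [← Nat.cast_mul] at h5
    norm_num at h5 ⊢
    exact h5
  rw [e2, e4]
  push_cast
  ring

end Pool.Agent.H97.ICX
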