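import Mathlib
import Pool.Agent.H97.ICX.Tw
import Pool.Agent.H11.PE.PDOF0

/-!
# [H97 ICX To] the sum over all n from the sum over the odd n (MP_8e9775_nt, weight 1)

PROOF. For odd `n` `tw a n = a n` (`tw_odd`), so `∑_(n odd) ‖a n‖^2 n^(-s) ≤ C (s-1)^(-2)` (all terms nonnegative;
summability of the `tw` series from `tw_ram`; summability of the `a` series: `te_sum` in Pool/Agent/H97/ICW/Te.lean,
private: copy it). `a` is multiplicative (`a_mul` in Te.lean, private: copy it) and every `n ≥ 1` is `2^j m`, `m` odd: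
`∑_n ‖a n‖^2 n^(-s) = (∑_j ‖a (2^j)‖^2 2^(-js)) (∑_(m odd) ‖a m‖^2 m^(-s))` (the map `(j, m) ↦ 2^j (2m+1)` is
injective, its range is the set of the `n ≥ 1`), and
`∑_j ‖a (2^j)‖^2 2^(-js) ≤ ∑_j C1^2 2^(j/2) 2^(-j)` with the Ramanujan bound at exponent `1/4`.
-/

set_option autoImplicit false

namespace Pool.Agent.H97.ICX

open Pool.Agent.H11.Selberg Pool.Agent.H11.PE

private theorem a_mul (a : ℕ → ℂ) (F : ℂ → ℂ) (hS : IsSelberg a F) (m n : ℕ) (hmn : Nat.Coprime m n) :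
    a (m * n) = a m * a n := by
  have h := (pd0_of a F hS 0).mul m n hmn
  simpa using h

private theorem te_sum (a : ℕ → ℂ)
    (ha : ∀ ε : ℝ, 0 < ε → ∃ C : ℝ, ∀ n : ℕ, 1 ≤ n → ‖a n‖ ≤ C * (n : ℝ) ^ ε) (s : ℝ) (hs : 1 < s) :
    Summable fun n : ℕ => ‖a n‖ ^ 2 / (n : ℝ) ^ s := by
  obtain ⟨C, hC⟩ := ha ((s - 1) / 4) (by linarith)
  have h1 : Summable fun n : ℕ => C ^ 2 * (1 / (n : ℝ) ^ (1 + (s - 1) / 2)) :=
    ((Real.summable_one_div_nat_rpow (p := 1 + (s - 1) / 2)).2 (by linarith)).mul_left (C ^ 2)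
  refine Summable.of_nonneg_of_le (fun n => by positivity) (fun n => ?_) h1
  rcases Nat.eq_zero_or_pos n with h0 | h0
  · rw [h0, Nat.cast_zero, Real.zero_rpow (by linarith), Real.zero_rpow (by linarith), div_zero, div_zero, mul_zero]
  · have hn : (0 : ℝ) < n := by exact_mod_cast h0
    have h2 : ‖a n‖ ^ 2 ≤ C ^ 2 * (n : ℝ) ^ ((s - 1) / 2) := by
      have h3 := pow_le_pow_left₀ (norm_nonneg _) (hC n h0) 2
      rw [mul_pow, ← Real.rpow_natCast ((n : ℝ) ^ ((s - 1) / 4)) 2, ← Real.rpow_mul hn.le] at h3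
      rw [show (s - 1) / 2 = (s - 1) / 4 * ((2 : ℕ) : ℝ) by push_cast; ring]
      exact h3
    have h4 : 0 < (n : ℝ) ^ s := Real.rpow_pos_of_pos hn _
    rw [div_le_iff₀ h4]
    refine h2.trans (le_of_eq ?_)
    rw [mul_assoc]
    congr 1
    rw [one_div, ← Real.rpow_neg hn.le, ← Real.rpow_add hn]
    congr 1
    ring

private theorem to_inj : Function.Injective fun q : ℕ × ℕ => 2 ^ q.1 * (2 * q.2 + 1) := by
  have key : ∀ j j' m m' : ℕ, j ≤ j' → 2 ^ j * (2 * m + 1) = 2 ^ j' * (2 * m' + 1) → j = j' ∧ m = m' := by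
    intro j j' m m' hj he
    obtain ⟨i, rfl⟩ := Nat.exists_eq_add_of_le hj
    have h1 : 2 * m + 1 = 2 ^ i * (2 * m' + 1) := by
      have h2 : 2 ^ j * (2 * m + 1) = 2 ^ j * (2 ^ i * (2 * m' + 1)) := by
        rw [he, pow_add]
        ring
      exact Nat.eq_of_mul_eq_mul_left (by positivity) h2
    rcases Nat.eq_zero_or_pos i with h0 | h0
    · subst h0
      rw [pow_zero, one_mul] at h1
      exact ⟨rfl, by omega⟩
    · exfalso
      obtain ⟨l, rfl⟩ : ∃ l, i = l + 1 := ⟨i - 1, by omega⟩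
      have h2 : 2 * m + 1 = 2 * (2 ^ l * (2 * m' + 1)) := by
        rw [h1, pow_succ]
        ring
      omega
  rintro ⟨j, m⟩ ⟨j', m'⟩ he
  simp only at he
  rcases le_total j j' with h | h
  · obtain ⟨h1, h2⟩ := key j j' m m' h he
    rw [h1, h2]
  · obtain ⟨h1, h2⟩ := key j' j m' m h he.symm
    rw [h1, h2]

theorem odd_bound (a : ℕ → ℂ) (F : ℂ → ℂ) (hS : IsSelberg a F) (C : ℝ) (hC : 0 < C)
    (h : ∀ s : ℝ, 1 < s → s ≤ 2 →
      ∑' n : ℕ, ‖tw a n‖ ^ 2 / (n : ℝ) ^ s ≤ C * (s - 1) ^ (-(2 : ℝ))) :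
    ∃ C : ℝ, 0 < C ∧ ∀ s : ℝ, 1 < s → s ≤ 2 →
      ∑' n : ℕ, ‖a n‖ ^ 2 / (n : ℝ) ^ s ≤ C * (s - 1) ^ (-(2 : ℝ)) := by
  obtain ⟨C1, hC1⟩ := hS.ramanujan (1 / 4) (by norm_num)
  obtain ⟨q, hq⟩ : ∃ q : ℝ, q = (2 : ℝ) ^ (-(1 / 2) : ℝ) := ⟨_, rfl⟩
  have hq0 : 0 < q := by
    rw [hq]
    positivity
  have hq1 : q < 1 := by
    rw [hq]
    exact Real.rpow_lt_one_of_one_lt_of_neg (by norm_num) (by norm_num)
  have hq1' : 0 < 1 - q := by linarith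
  refine ⟨(C1 ^ 2 + 1) / (1 - q) * C, by positivity, fun s hs hs2 => ?_⟩
  obtain ⟨f, hf⟩ : ∃ f : ℕ → ℝ, ∀ n, f n = ‖a n‖ ^ 2 / (n : ℝ) ^ s := ⟨_, fun _ => rfl⟩
  obtain ⟨g, hg⟩ : ∃ g : ℕ → ℝ, ∀ n, g n = ‖tw a n‖ ^ 2 / (n : ℝ) ^ s := ⟨_, fun _ => rfl⟩
  have hf0 : f 0 = 0 := by
    rw [hf, Nat.cast_zero, Real.zero_rpow (by linarith), div_zero]
  have hfn : ∀ n, 0 ≤ f n := by
    intro n
    rw [hf]
    positivity
  have hgn : ∀ n, 0 ≤ g n := by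
    intro n
    rw [hg]
    positivity
  have hmul : ∀ {m n : ℕ}, Nat.Coprime m n → f (m * n) = f m * f n := by
    intro m n hmn
    rw [hf, hf, hf, a_mul a F hS m n hmn, norm_mul, mul_pow, Nat.cast_mul,
      Real.mul_rpow (Nat.cast_nonneg _) (Nat.cast_nonneg _), mul_div_mul_comm]
  have hsf : Summable f := by
    have h1 := te_sum a hS.ramanujan s hs
    rwa [show (fun n : ℕ => ‖a n‖ ^ 2 / (n : ℝ) ^ s) = f from funext fun n => (hf n).symm] at h1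
  have hsg : Summable g := by
    have h1 := te_sum (tw a) (tw_ram a hS.ramanujan) s hs
    rwa [show (fun n : ℕ => ‖tw a n‖ ^ 2 / (n : ℝ) ^ s) = g from funext fun n => (hg n).symm] at h1
  -- the sums over the powers of two and over the odd numbers
  have hs1 : Summable fun j : ℕ => f (2 ^ j) :=
    hsf.comp_injective (Nat.pow_right_injective le_rfl)
  have hodd : Function.Injective fun m : ℕ => 2 * m + 1 := fun m n hmn => by
    simp only at hmn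
    omega
  have hs2' : Summable fun m : ℕ => f (2 * m + 1) := hsf.comp_injective hodd
  have hprod : ∑' n, f n = (∑' j : ℕ, f (2 ^ j)) * ∑' m : ℕ, f (2 * m + 1) := by
    rw [tsum_mul_tsum_of_summable_norm hs1.norm hs2'.norm]
    have h1 : ∀ z : ℕ × ℕ, f (2 ^ z.1) * f (2 * z.2 + 1) = f (2 ^ z.1 * (2 * z.2 + 1)) := by
      intro z
      refine (hmul ?_).symm
      refine Nat.Coprime.pow_left _ ?_
      rw [Nat.coprime_two_left]
      exact ⟨z.2, rfl⟩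
    rw [tsum_congr h1]
    refine (Function.Injective.tsum_eq (f := f) to_inj ?_).symm
    intro n hn
    have hn0 : n ≠ 0 := by
      rintro rfl
      exact hn hf0
    obtain ⟨k, m, ⟨l, rfl⟩, hk⟩ := Nat.exists_eq_two_pow_mul_odd hn0
    exact ⟨(k, l), hk.symm⟩
  -- the bound of the first factor
  have hb1 : ∑' j : ℕ, f (2 ^ j) ≤ (C1 ^ 2 + 1) / (1 - q) := by
    have h1 : ∀ j : ℕ, f (2 ^ j) ≤ (C1 ^ 2 + 1) * q ^ j := by
      intro j
      have h2 : (0 : ℝ) < (2 : ℝ) ^ j := by positivity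
      have h2' : (1 : ℝ) ≤ (2 : ℝ) ^ j := one_le_pow₀ (by norm_num)
      have h3 : ‖a (2 ^ j)‖ ^ 2 ≤ C1 ^ 2 * ((2 : ℝ) ^ j) ^ (1 / 2 : ℝ) := by
        have h4 := pow_le_pow_left₀ (norm_nonneg _) (hC1 (2 ^ j) Nat.one_le_two_pow) 2
        rw [mul_pow] at h4
        push_cast at h4
        rw [← Real.rpow_natCast (((2 : ℝ) ^ j) ^ (1 / 4 : ℝ)) 2, ← Real.rpow_mul h2.le] at h4
        rw [show (1 / 2 : ℝ) = 1 / 4 * ((2 : ℕ) : ℝ) by norm_num]
        exact h4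
      have h4 : (2 : ℝ) ^ j ≤ ((2 : ℝ) ^ j) ^ s := by
        calc (2 : ℝ) ^ j = ((2 : ℝ) ^ j) ^ (1 : ℝ) := (Real.rpow_one _).symm
          _ ≤ ((2 : ℝ) ^ j) ^ s := Real.rpow_le_rpow_of_exponent_le h2' hs.le
      rw [hf]
      push_cast
      have h5 : ((2 : ℝ) ^ j) ^ (1 / 2 : ℝ) / (2 : ℝ) ^ j = q ^ j := by
        rw [hq, ← Real.rpow_natCast ((2 : ℝ) ^ (-(1 / 2) : ℝ)) j, ← Real.rpow_mul (by norm_num),
          ← Real.rpow_natCast 2 j, ← Real.rpow_mul (by norm_num), ← Real.rpow_sub (by norm_num)]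
        congr 1
        ring
      calc ‖a (2 ^ j)‖ ^ 2 / ((2 : ℝ) ^ j) ^ s ≤ ‖a (2 ^ j)‖ ^ 2 / (2 : ℝ) ^ j :=
            div_le_div_of_nonneg_left (by positivity) h2 h4
        _ ≤ (C1 ^ 2 * ((2 : ℝ) ^ j) ^ (1 / 2 : ℝ)) / (2 : ℝ) ^ j :=
            div_le_div_of_nonneg_right h3 h2.le
        _ = C1 ^ 2 * q ^ j := by
            rw [mul_div_assoc, h5]
        _ ≤ (C1 ^ 2 + 1) * q ^ j := mul_le_mul_of_nonneg_right (by linarith) (by positivity)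
    have h2 : Summable fun j : ℕ => (C1 ^ 2 + 1) * q ^ j :=
      (summable_geometric_of_lt_one hq0.le hq1).mul_left _
    refine (hs1.tsum_le_tsum h1 h2).trans (le_of_eq ?_)
    rw [tsum_mul_left, tsum_geometric_of_lt_one hq0.le hq1, div_eq_mul_inv]
  -- the bound of the second factor
  have hb2 : ∑' m : ℕ, f (2 * m + 1) ≤ C * (s - 1) ^ (-(2 : ℝ)) := by
    have h1 : ∀ m : ℕ, f (2 * m + 1) = g (2 * m + 1) := by
      intro m
      rw [hf, hg, tw_odd a (2 * m + 1) (by omega)]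
    rw [tsum_congr h1]
    have h2 : ∑' m : ℕ, g (2 * m + 1) ≤ ∑' n, g n :=
      tsum_comp_le_tsum_of_inj hsg hgn hodd
    refine h2.trans ?_
    have h3 := h s hs hs2
    rwa [show (fun n : ℕ => ‖tw a n‖ ^ 2 / (n : ℝ) ^ s) = g from funext fun n => (hg n).symm] at h3
  have hb1n : 0 ≤ ∑' m : ℕ, f (2 * m + 1) := tsum_nonneg fun m => hfn _
  have hfe : ∑' n : ℕ, ‖a n‖ ^ 2 / (n : ℝ) ^ s = ∑' n, f n := tsum_congr fun n => (hf n).symm
  rw [hfe, hprod]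
  calc (∑' j : ℕ, f (2 ^ j)) * ∑' m : ℕ, f (2 * m + 1)
      ≤ (C1 ^ 2 + 1) / (1 - q) * ∑' m : ℕ, f (2 * m + 1) := mul_le_mul_of_nonneg_right hb1 hb1n
    _ ≤ (C1 ^ 2 + 1) / (1 - q) * (C * (s - 1) ^ (-(2 : ℝ))) :=
        mul_le_mul_of_nonneg_left hb2 (by positivity)
    _ = (C1 ^ 2 + 1) / (1 - q) * C * (s - 1) ^ (-(2 : ℝ)) := by ring

end Pool.Agent.H97.ICX
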