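import Mathlib
import Pool.Agent.H97.ICW.Te
import Pool.Agent.H11.PE.RDefs
import Pool.Agent.H11.PE.PDOF0
import Pool.Agent.H11.PC.Defs
import Pool.Agent.H11.PE.TTL

/-!
# [H97 ICX Tt] from the Rankin-Selberg bound to `S_F(x) = O(log log x)` (MP_8e9775_nt, weight 1)

PROOF. `T_le` (Pool/Agent/H97/ICW/Te.lean) gives `T a u ≤ 2 log (1/u) + K`, `0 < u ≤ 1/2`. For `x ≥ 16` put `u = 1/log x`
(`log x > 2`): for `p ≤ x` `p^(-u) ≥ exp(-1)`, so `S a x ≤ e T a u ≤ e (2 log log x + K)`, and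
`log log x ≥ 1` for `x ≥ 16` (`log 16 = 4 log 2 > 2.77 > e`), so `C = e (2 + K)`; see `bounded_S` in
Pool/Agent/H11/PC/BDD.lean for the same step. `T` is in Pool/Agent/H11/PE/RDefs.lean (a `tsum` over
`Nat.Primes`; summability from the Ramanujan bound as in Te.lean), `S` in Pool/Agent/H11/Selberg/Defs.lean.
-/

set_option autoImplicit false

namespace Pool.Agent.H97.ICX

open Pool.Agent.H11.Selberg Pool.Agent.H11.PE

theorem S_of_T (a : ℕ → ℂ) (F : ℂ → ℂ) (hS : IsSelberg a F) (C : ℝ) (hC : 0 < C)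
    (h : ∀ s : ℝ, 1 < s → s ≤ 2 →
      ∑' n : ℕ, ‖a n‖ ^ 2 / (n : ℝ) ^ s ≤ C * (s - 1) ^ (-(2 : ℝ))) :
    ∃ C : ℝ, ∀ x : ℝ, 16 ≤ x → S a x ≤ C * Real.log (Real.log x) := by
  obtain ⟨K, hK, hT⟩ := Pool.Agent.H97.ICW.T_le a F hS C hC h
  have hpd : PD0 a := by simpa using pd0_of a F hS 0
  refine ⟨Real.exp 1 * (2 + K), fun x hx => ?_⟩
  have hL : Real.exp 1 ≤ Real.log x := by
    have h2 : Real.log 16 ≤ Real.log x := Real.log_le_log (by norm_num) hx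
    have h3 : Real.log 16 = 4 * Real.log 2 := by
      rw [show (16 : ℝ) = 2 ^ 4 by norm_num, Real.log_pow]
      norm_num
    have h4 := Real.log_two_gt_d9
    have h5 := Real.exp_one_lt_d9
    linarith
  have hL2 : 2 ≤ Real.log x := by
    have h5 := Real.exp_one_gt_d9
    linarith
  have hL0 : 0 < Real.log x := by linarith
  have hx0 : 0 < x := by linarith
  have h1 : 1 ≤ Real.log (Real.log x) := by
    rw [Real.le_log_iff_exp_le hL0]
    exact hL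
  obtain ⟨u, hu⟩ : ∃ u : ℝ, u = 1 / Real.log x := ⟨_, rfl⟩
  have hu0 : 0 < u := by
    rw [hu]
    positivity
  have hu2 : u ≤ 1 / 2 := by
    rw [hu]
    exact one_div_le_one_div_of_le (by norm_num) hL2
  have h2 := hT u hu0 hu2
  have h3 : 1 / u = Real.log x := by rw [hu, one_div_one_div]
  rw [h3] at h2
  have hsum := TT_summable hpd hu0
  have h4 : S a x ≤ Real.exp 1 * T a u := by
    unfold S T
    rw [← Finset.sum_subtype_eq_sum_filter]
    have h5 : ∀ p ∈ (Finset.Icc 1 ⌊x⌋₊).subtype Nat.Prime, ‖a (p : ℕ)‖ ^ 2 / ((p : ℕ) : ℝ) ≤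
        Real.exp 1 * (‖a (p : ℕ)‖ ^ 2 * ((p : ℕ) : ℝ) ^ (-(1 + u))) := by
      intro p hp
      rw [Finset.mem_subtype, Finset.mem_Icc] at hp
      have hp0 : (0 : ℝ) < ((p : ℕ) : ℝ) := by exact_mod_cast p.2.pos
      have hpx : ((p : ℕ) : ℝ) ≤ x := (Nat.le_floor_iff hx0.le).1 hp.2
      have h6 : ((p : ℕ) : ℝ) ^ u ≤ Real.exp 1 := by
        calc ((p : ℕ) : ℝ) ^ u ≤ x ^ u := Real.rpow_le_rpow hp0.le hpx hu0.le
          _ = Real.exp 1 := by
            rw [Real.rpow_def_of_pos hx0, hu, mul_one_div, div_self hL0.ne']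
      have h7 : ((p : ℕ) : ℝ) ^ (-(1 + u)) = 1 / (((p : ℕ) : ℝ) * ((p : ℕ) : ℝ) ^ u) := by
        rw [Real.rpow_neg hp0.le, Real.rpow_add hp0, Real.rpow_one, one_div]
      have h8 : 0 < ((p : ℕ) : ℝ) ^ u := Real.rpow_pos_of_pos hp0 _
      rw [h7, mul_one_div, mul_div_assoc', div_le_div_iff₀ hp0 (mul_pos hp0 h8)]
      have h9 : 0 ≤ ‖a (p : ℕ)‖ ^ 2 * ((p : ℕ) : ℝ) := by positivity
      nlinarith [mul_le_mul_of_nonneg_left h6 h9]
    calc _ ≤ ∑ p ∈ (Finset.Icc 1 ⌊x⌋₊).subtype Nat.Prime,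
          Real.exp 1 * (‖a (p : ℕ)‖ ^ 2 * ((p : ℕ) : ℝ) ^ (-(1 + u))) := Finset.sum_le_sum h5
      _ = Real.exp 1 * ∑ p ∈ (Finset.Icc 1 ⌊x⌋₊).subtype Nat.Prime,
          (‖a (p : ℕ)‖ ^ 2 * ((p : ℕ) : ℝ) ^ (-(1 + u))) := by rw [Finset.mul_sum]
      _ ≤ _ := by
        refine mul_le_mul_of_nonneg_left ?_ (Real.exp_pos 1).le
        obtain ⟨P, hP⟩ : ∃ P : Finset Nat.Primes, P = (Finset.Icc 1 ⌊x⌋₊).subtype Nat.Prime := ⟨_, rfl⟩
        have h10 := hsum.sum_le_tsum P fun p _ => by positivity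
        rw [hP] at h10
        exact h10
  calc S a x ≤ Real.exp 1 * T a u := h4
    _ ≤ Real.exp 1 * (2 * Real.log (Real.log x) + K) := mul_le_mul_of_nonneg_left h2 (Real.exp_pos 1).le
    _ ≤ Real.exp 1 * (2 * Real.log (Real.log x) + K * Real.log (Real.log x)) := by
        refine mul_le_mul_of_nonneg_left ?_ (Real.exp_pos 1).le
        have := le_mul_of_one_le_right hK.le h1
        linarith
    _ = Real.exp 1 * (2 + K) * Real.log (Real.log x) := by ring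

end Pool.Agent.H97.ICX
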