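import Mathlib

/-!
# [H97 ICX Tu] the factor `E(s) = (1 - 2^(-s)) (1 - 2^(1-s))` (MP_8e9775_nt, weight 1). MATHLIB ONLY

PROOF. `EE_sym`: `2^s E(s) = 2^s + 2^(1-s) - 3` (expand, `Complex.cpow_add`/`cpow_sub`), which is invariant under
`s → 1 - s` and commutes with conjugation (`Complex.cpow_conj` or `exp_conj`, `2 > 0`).
`EE_norm`: `‖2^w‖ = 2^(Re w) ≤ 2^‖w‖`, so `‖E(s)‖ ≤ (1 + 2^‖s‖) (1 + 2·2^‖s‖) ≤ 6 · 4^‖s‖ ≤ 6 exp (2 ‖s‖)`
(`log 4 < 2`). `EE_near`: `‖1 - 2^(x-1)‖ ≤ 1` and `‖1 - 2^x‖ = 2^x - 1 ≤ 2x` for `0 ≤ x ≤ 1` (convexity: `2^x ≤ 1 + x`,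
or `exp y ≤ 1 + 2 y` for `y ≤ 1`). `order_mul`: `A' = max A 0 + 2`: for `r ≥ 1` `r^A ≤ r^A'`, `2 r ≤ r^A' + 1`: careful:
`r^A + 2 r ≤ C'' + r^A'` with `A' = max A 0 + 2`, since `r^(max A 0) + 2 r ≤ r^A' + 4` for `r ≥ 1` (for `r ≥ 3`: `r^A' = r^2 r^(max A 0) ≥ ..`);
for `r ≤ 1` the exponents `r^A` may be big if `A < 0`: hence the hypothesis `0 ≤ A`.
-/

set_option autoImplicit false

namespace Pool.Agent.H97.ICX

open Complex

/-- the factor -/
noncomputable def EE (s : ℂ) : ℂ := (1 - (2 : ℂ) ^ (-s)) * (1 - (2 : ℂ) ^ (1 - s))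

theorem EE_diff : Differentiable ℂ EE := by
  unfold EE
  refine Differentiable.mul ?_ ?_
  · refine Differentiable.sub (differentiable_const _) ?_
    exact Differentiable.const_cpow differentiable_id.neg (Or.inl two_ne_zero)
  · refine Differentiable.sub (differentiable_const _) ?_
    exact Differentiable.const_cpow ((differentiable_const _).sub differentiable_id)
      (Or.inl two_ne_zero)

private theorem EE_mul (s : ℂ) : (2 : ℂ) ^ s * EE s = (2 : ℂ) ^ s + (2 : ℂ) ^ (1 - s) - 3 := by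
  have h2 : (2 : ℂ) ≠ 0 := two_ne_zero
  have ha : (2 : ℂ) ^ s ≠ 0 := by
    rw [Ne, Complex.cpow_eq_zero_iff]
    exact fun h => h2 h.1
  have h1 : (2 : ℂ) ^ (-s) = ((2 : ℂ) ^ s)⁻¹ := Complex.cpow_neg _ _
  have h3 : (2 : ℂ) ^ (1 - s) = 2 * ((2 : ℂ) ^ s)⁻¹ := by
    rw [Complex.cpow_sub _ _ h2, Complex.cpow_one, div_eq_mul_inv]
  unfold EE
  rw [h1, h3]
  field_simp
  ring

private theorem conj_two (w : ℂ) : (starRingEnd ℂ) ((2 : ℂ) ^ w) = (2 : ℂ) ^ ((starRingEnd ℂ) w) := by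
  have h := Complex.cpow_conj (2 : ℂ) w (by
    have : (2 : ℂ) = ((2 : ℝ) : ℂ) := by norm_num
    rw [this, Complex.arg_ofReal_of_nonneg (by norm_num)]
    exact Real.pi_pos.ne)
  have h2 : (starRingEnd ℂ) (2 : ℂ) = 2 := map_ofNat _ 2
  rw [h, h2]

theorem EE_sym (s : ℂ) : (2 : ℂ) ^ s * EE s =
    (starRingEnd ℂ) ((2 : ℂ) ^ (1 - (starRingEnd ℂ) s) * EE (1 - (starRingEnd ℂ) s)) := by
  rw [EE_mul, EE_mul, map_sub, map_add, conj_two, conj_two]
  simp only [map_sub, map_one, Complex.conj_conj, sub_sub_cancel, map_ofNat]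
  ring

private theorem norm_two (w : ℂ) : ‖(2 : ℂ) ^ w‖ = Real.exp (Real.log 2 * w.re) := by
  have h := Complex.norm_cpow_eq_rpow_re_of_pos (x := 2) (by norm_num) w
  rw [Real.rpow_def_of_pos (by norm_num)] at h
  simpa using h

theorem EE_norm (s : ℂ) : ‖EE s‖ ≤ 6 * Real.exp (2 * ‖s‖) := by
  have hl0 : 0 < Real.log 2 := Real.log_pos (by norm_num)
  have hl1 : Real.log 2 ≤ 1 := by
    have := Real.log_le_sub_one_of_pos (show (0 : ℝ) < 2 by norm_num)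
    linarith
  have hre : -s.re ≤ ‖s‖ := le_trans (neg_le_abs _) (Complex.abs_re_le_norm s)
  set y : ℝ := Real.exp ‖s‖ with hy
  have hy1 : 1 ≤ y := Real.one_le_exp (norm_nonneg s)
  have h1 : ‖(2 : ℂ) ^ (-s)‖ ≤ y := by
    rw [norm_two, hy]
    apply Real.exp_le_exp.mpr
    have h0 : (-s).re = -s.re := Complex.neg_re s
    rw [h0]
    have hn := norm_nonneg s
    nlinarith
  have h2 : ‖(2 : ℂ) ^ (1 - s)‖ ≤ 2 * y := by
    have h3 : ‖(2 : ℂ) ^ (1 - s)‖ = 2 * ‖(2 : ℂ) ^ (-s)‖ := by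
      rw [norm_two, norm_two]
      have h0 : (1 - s).re = 1 + (-s).re := by simp [sub_eq_add_neg]
      rw [h0, mul_add, mul_one, Real.exp_add, Real.exp_log (by norm_num)]
    rw [h3]
    linarith
  have h3 : ‖1 - (2 : ℂ) ^ (-s)‖ ≤ 2 * y := by
    refine le_trans (norm_sub_le _ _) ?_
    rw [norm_one]
    linarith
  have h4 : ‖1 - (2 : ℂ) ^ (1 - s)‖ ≤ 3 * y := by
    refine le_trans (norm_sub_le _ _) ?_
    rw [norm_one]
    linarith
  unfold EE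
  rw [norm_mul]
  have h5 : Real.exp (2 * ‖s‖) = y * y := by
    rw [hy, ← Real.exp_add]
    congr 1
    ring
  rw [h5]
  calc ‖1 - (2 : ℂ) ^ (-s)‖ * ‖1 - (2 : ℂ) ^ (1 - s)‖ ≤ (2 * y) * (3 * y) :=
        mul_le_mul h3 h4 (norm_nonneg _) (by positivity)
    _ = 6 * (y * y) := by ring

theorem EE_near (x : ℝ) (h0 : 0 ≤ x) (h1 : x ≤ 1) : ‖EE (1 - (x : ℂ))‖ ≤ 2 * x := by
  have hl0 : 0 < Real.log 2 := Real.log_pos (by norm_num)
  have hl1 : Real.log 2 ≤ 1 := by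
    have := Real.log_le_sub_one_of_pos (show (0 : ℝ) < 2 by norm_num)
    linarith
  have e1 : (2 : ℂ) ^ (-(1 - (x : ℂ))) = ((Real.exp (Real.log 2 * (x - 1)) : ℝ) : ℂ) := by
    have h : (2 : ℂ) = ((2 : ℝ) : ℂ) := by norm_num
    have h' : -(1 - (x : ℂ)) = ((x - 1 : ℝ) : ℂ) := by push_cast; ring
    rw [h', h, ← Complex.ofReal_cpow (by norm_num), Real.rpow_def_of_pos (by norm_num)]
  have e2 : (2 : ℂ) ^ (1 - (1 - (x : ℂ))) = ((Real.exp (Real.log 2 * x) : ℝ) : ℂ) := by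
    have h : (2 : ℂ) = ((2 : ℝ) : ℂ) := by norm_num
    have h' : (1 - (1 - (x : ℂ))) = ((x : ℝ) : ℂ) := by ring
    rw [h', h, ← Complex.ofReal_cpow (by norm_num), Real.rpow_def_of_pos (by norm_num)]
  unfold EE
  rw [e1, e2, norm_mul]
  have f1 : ‖(1 : ℂ) - ((Real.exp (Real.log 2 * (x - 1)) : ℝ) : ℂ)‖ ≤ 1 := by
    rw [← Complex.ofReal_one, ← Complex.ofReal_sub, Complex.norm_real, Real.norm_eq_abs, abs_le]
    have p := Real.exp_pos (Real.log 2 * (x - 1))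
    have q : Real.exp (Real.log 2 * (x - 1)) ≤ 1 := by
      apply Real.exp_le_one_iff.mpr
      nlinarith
    constructor <;> linarith
  have f2 : ‖(1 : ℂ) - ((Real.exp (Real.log 2 * x) : ℝ) : ℂ)‖ ≤ 2 * x := by
    rw [← Complex.ofReal_one, ← Complex.ofReal_sub, Complex.norm_real, Real.norm_eq_abs, abs_le]
    have q : 1 ≤ Real.exp (Real.log 2 * x) := Real.one_le_exp (by positivity)
    have r : Real.exp (Real.log 2 * x) ≤ 1 + x := by
      have hc := convexOn_exp.2 (Set.mem_univ 0) (Set.mem_univ (Real.log 2))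
        (show (0 : ℝ) ≤ 1 - x by linarith) h0 (by ring)
      simp only [smul_eq_mul, mul_zero, zero_add, Real.exp_zero, mul_one] at hc
      rw [Real.exp_log (by norm_num)] at hc
      rw [mul_comm (Real.log 2) x]
      linarith
    constructor <;> linarith
  calc ‖(1 : ℂ) - ((Real.exp (Real.log 2 * (x - 1)) : ℝ) : ℂ)‖ *
        ‖(1 : ℂ) - ((Real.exp (Real.log 2 * x) : ℝ) : ℂ)‖ ≤ 1 * (2 * x) :=
        mul_le_mul f1 f2 (norm_nonneg _) (by norm_num)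
    _ = 2 * x := one_mul _

theorem order_mul (A C M : ℝ) (hA : 0 ≤ A) (hC : 0 ≤ C) (hM : 0 ≤ M) : ∃ A' C' : ℝ, ∀ r : ℝ, 0 ≤ r →
    C * Real.exp (r ^ A) * (6 * Real.exp (2 * r)) + M ≤ C' * Real.exp (r ^ A') := by
  refine ⟨A + 2, 6 * C * Real.exp 3 + M, fun r hr => ?_⟩
  have key : r ^ A + 2 * r ≤ 3 + r ^ (A + 2) := by
    have h0 : 0 ≤ r ^ (A + 2) := Real.rpow_nonneg hr _
    rcases le_total r 1 with h | h
    · have h1 : r ^ A ≤ 1 := Real.rpow_le_one hr h hA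
      linarith
    · have h1 : 1 ≤ r ^ A := Real.one_le_rpow h hA
      have h2 : r ^ (A + 2) = r ^ A * r ^ 2 := by
        rw [Real.rpow_add (by linarith)]
        norm_num
      rw [h2]
      nlinarith [sq_nonneg (r - 1), mul_le_mul_of_nonneg_right h1 (show 0 ≤ r ^ 2 - 1 by nlinarith)]
  have h1 : 1 ≤ Real.exp (r ^ (A + 2)) := Real.one_le_exp (Real.rpow_nonneg hr _)
  have h2 : Real.exp (r ^ A) * Real.exp (2 * r) ≤ Real.exp 3 * Real.exp (r ^ (A + 2)) := by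
    rw [← Real.exp_add, ← Real.exp_add]
    exact Real.exp_le_exp.mpr key
  calc C * Real.exp (r ^ A) * (6 * Real.exp (2 * r)) + M
      = 6 * C * (Real.exp (r ^ A) * Real.exp (2 * r)) + M * 1 := by ring
    _ ≤ 6 * C * (Real.exp 3 * Real.exp (r ^ (A + 2))) + M * Real.exp (r ^ (A + 2)) := by
        gcongr
    _ = (6 * C * Real.exp 3 + M) * Real.exp (r ^ (A + 2)) := by ring

end Pool.Agent.H97.ICX
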