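import Mathlib
import Pool.Agent.H13.IC.Defs
import Pool.Agent.H97.ICX.Tu

/-!
# [H97 ICX Tv] the pole at `1` is at most simple: `x F(1 - x)` bounded (MP_8e9775_nt, weight 1)

PROOF. Copy of the part BOUNDED of `entire_of_weight` (Pool/Agent/H13/IC/Ha.lean) with `μ = 0`:
`Q = sqrt N/(2π)`, `hS.continuation`: `m`, `G0`. On the real segment `s = x`, `x → 0+` the functional equation gives
`‖Q^x Γ(x) F(x)‖ = ‖Q^(1-x) Γ(1-x) F(1-x)‖`; multiply by `x`, `x Γ(x) = Γ(x+1)` (`Complex.Gamma_add_one`), and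
`F(x) = G0(x)/(x-1)^m`. So `x ‖F(1-x)‖ = φ(x)` with
`φ(x) = ‖Q^x Γ(x+1) (G0 x/(x-1)^m)‖ / ‖Q^(1-x) Γ(1-x)‖`, continuous at `0`. (`(((1:ℕ):ℂ) - 1)/2 = 0`.)
-/

set_option autoImplicit false

namespace Pool.Agent.H97.ICX

open Complex Pool.Agent.H11.Selberg Pool.Agent.H11.SC Filter Topology

theorem F_near (N : ℝ) (hN : 0 < N) (a : ℕ → ℂ) (F : ℂ → ℂ) (ε : ℂ)
    (hS : IsSelberg a F) (hε : ‖ε‖ = 1)
    (hfe : ∀ s : ℂ, 0 < s.re → s.re < 1 →
      completed (Real.sqrt N / (2 * Real.pi)) (fun _ : Fin 1 => (1 : ℝ))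
          (fun _ => (((1 : ℕ) : ℂ) - 1) / 2) F s =
        ε * (starRingEnd ℂ) (completed (Real.sqrt N / (2 * Real.pi)) (fun _ : Fin 1 => (1 : ℝ))
          (fun _ => (((1 : ℕ) : ℂ) - 1) / 2) F (1 - (starRingEnd ℂ) s))) :
    ∃ B : ℝ, ∀ᶠ x : ℝ in 𝓝[>] (0 : ℝ), x * ‖F (1 - (x : ℂ))‖ ≤ B := by
  obtain ⟨Q, hQ⟩ : ∃ Q : ℝ, Q = Real.sqrt N / (2 * Real.pi) := ⟨_, rfl⟩
  have hQ0 : 0 < Q := by
    rw [hQ]
    exact div_pos (Real.sqrt_pos.2 hN) (by positivity)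
  rw [← hQ] at hfe
  have hcomp : ∀ (H : ℂ → ℂ) (s : ℂ), completed Q (fun _ : Fin 1 => (1 : ℝ))
      (fun _ => (((1 : ℕ) : ℂ) - 1) / 2) H s = (Q : ℂ) ^ s * Complex.Gamma s * H s := by
    intro H s
    unfold completed
    simp
  obtain ⟨m, G0, hG0, -, hG0F⟩ := hS.continuation
  have hQc : (Q : ℂ) ≠ 0 := Complex.ofReal_ne_zero.2 hQ0.ne'
  have hgne : ∀ s : ℂ, 0 < s.re → ∀ n : ℕ, s ≠ -(n : ℂ) := by
    intro s hs n h0
    rw [h0, Complex.neg_re, Complex.natCast_re] at hs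
    have : (0 : ℝ) ≤ n := Nat.cast_nonneg n
    linarith
  obtain ⟨φ, hφ⟩ : ∃ φ : ℝ → ℝ, φ = fun x : ℝ =>
      ‖(Q : ℂ) ^ (x : ℂ) * Complex.Gamma ((x : ℂ) + 1) * (G0 (x : ℂ) / ((x : ℂ) - 1) ^ m)‖ /
        ‖(Q : ℂ) ^ (1 - (x : ℂ)) * Complex.Gamma (1 - (x : ℂ))‖ := ⟨_, rfl⟩
  have hcont : ContinuousAt φ 0 := by
    rw [hφ]
    have c1 : ContinuousAt (fun x : ℝ => (Q : ℂ) ^ (x : ℂ)) 0 :=
      (Complex.continuous_ofReal.const_cpow (Or.inl hQc)).continuousAt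
    have c2 : ContinuousAt (fun x : ℝ => Complex.Gamma ((x : ℂ) + 1)) 0 := by
      have h1 : ContinuousAt Complex.Gamma (((0 : ℝ) : ℂ) + 1) := by
        refine (Complex.differentiableAt_Gamma _ (hgne _ ?_)).continuousAt
        simp
      exact ContinuousAt.comp (f := fun x : ℝ => (x : ℂ) + 1) h1
        (Complex.continuous_ofReal.add continuous_const).continuousAt
    have c3 : ContinuousAt (fun x : ℝ => G0 (x : ℂ) / ((x : ℂ) - 1) ^ m) 0 := by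
      refine ContinuousAt.div (hG0.continuous.comp Complex.continuous_ofReal).continuousAt
        ((Complex.continuous_ofReal.sub continuous_const).pow m).continuousAt ?_
      rw [Complex.ofReal_zero, zero_sub]
      exact pow_ne_zero _ (by norm_num)
    have c4 : ContinuousAt (fun x : ℝ => (Q : ℂ) ^ (1 - (x : ℂ))) 0 :=
      ((continuous_const.sub Complex.continuous_ofReal).const_cpow (Or.inl hQc)).continuousAt
    have c5 : ContinuousAt (fun x : ℝ => Complex.Gamma (1 - (x : ℂ))) 0 := by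
      have h1 : ContinuousAt Complex.Gamma (1 - ((0 : ℝ) : ℂ)) := by
        refine (Complex.differentiableAt_Gamma _ (hgne _ ?_)).continuousAt
        simp
      exact ContinuousAt.comp (f := fun x : ℝ => 1 - (x : ℂ)) h1
        (continuous_const.sub Complex.continuous_ofReal).continuousAt
    refine ContinuousAt.div ((c1.mul c2).mul c3).norm (c4.mul c5).norm ?_
    rw [norm_ne_zero_iff]
    refine mul_ne_zero ?_ (Complex.Gamma_ne_zero_of_re_pos ?_)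
    · rw [Complex.ofReal_zero, sub_zero, Complex.cpow_one]
      exact hQc
    · simp
  refine ⟨φ 0 + 1, ?_⟩
  have h1 : ∀ᶠ x : ℝ in 𝓝[>] (0 : ℝ), φ x < φ 0 + 1 :=
    (hcont.eventually (gt_mem_nhds (by linarith))).filter_mono nhdsWithin_le_nhds
  have h2 : ∀ᶠ x : ℝ in 𝓝[>] (0 : ℝ), x < 1 :=
    (gt_mem_nhds one_pos).filter_mono nhdsWithin_le_nhds
  filter_upwards [h1, h2, self_mem_nhdsWithin] with x hx1 hx2 hx0
  have hx0' : 0 < x := hx0
  have h3 := hfe (x : ℂ) (by simpa using hx0') (by simpa using hx2)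
  rw [Complex.conj_ofReal, hcomp, hcomp] at h3
  have h4 := congrArg norm h3
  rw [norm_mul ε, hε, one_mul, Complex.norm_conj, norm_mul _ (F (1 - (x : ℂ)))] at h4
  have hden : 0 < ‖(Q : ℂ) ^ (1 - (x : ℂ)) * Complex.Gamma (1 - (x : ℂ))‖ := by
    rw [norm_pos_iff]
    refine mul_ne_zero ?_ (Complex.Gamma_ne_zero_of_re_pos ?_)
    · rw [Ne, Complex.cpow_eq_zero_iff]
      exact fun h => hQc h.1
    · simp only [Complex.sub_re, Complex.one_re, Complex.ofReal_re]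
      linarith
  have hxne : (x : ℂ) ≠ 1 := by
    intro h0
    have : x = 1 := by exact_mod_cast h0
    linarith
  have hxc : (x : ℂ) ≠ 0 := Complex.ofReal_ne_zero.2 hx0'.ne'
  have h5 : G0 (x : ℂ) / ((x : ℂ) - 1) ^ m = F (x : ℂ) := by
    rw [hG0F _ hxne, mul_div_cancel_left₀ _ (pow_ne_zero m (sub_ne_zero.2 hxne))]
  have h7 : ‖(Q : ℂ) ^ (x : ℂ) * Complex.Gamma ((x : ℂ) + 1) * F (x : ℂ)‖ =
      x * ‖(Q : ℂ) ^ (x : ℂ) * Complex.Gamma (x : ℂ) * F (x : ℂ)‖ := by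
    rw [Complex.Gamma_add_one _ hxc]
    have h8 : (Q : ℂ) ^ (x : ℂ) * ((x : ℂ) * Complex.Gamma (x : ℂ)) * F (x : ℂ) =
        (x : ℂ) * ((Q : ℂ) ^ (x : ℂ) * Complex.Gamma (x : ℂ) * F (x : ℂ)) := by ring
    rw [h8, norm_mul, Complex.norm_real, Real.norm_eq_abs, abs_of_pos hx0']
  have h6 : x * ‖F (1 - (x : ℂ))‖ = φ x := by
    rw [hφ]
    simp only
    rw [h5, h7, h4, eq_div_iff hden.ne']
    ring
  rw [h6]
  exact hx1.le

end Pool.Agent.H97.ICX
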