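import Mathlib
import Pool.Agent.H97.ICX.Tw
import Pool.Agent.H97.ICX.Tl
import Pool.Agent.H97.ICX.Tu
import Pool.Agent.H97.ICX.Tv

/-!
# the functional equation of `(1 - 2^(-s)) (1 - 2^(1-s)) F(s)` (MP_8e9775_nt, weight 1)

`E(s) = (1 - 2^(-s)) (1 - 2^(1-s))` satisfies `2^s E(s) = 2^(1-s) E(1-s)`, and `E` vanishes at `1`. The pole of
`F` at `1` is at most simple (`F_near`), so `E F` is entire with the functional equation with `4 N`.
-/

set_option autoImplicit false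

namespace Pool.Agent.H97.ICX

open Complex Pool.Agent.H11.Selberg Pool.Agent.H11.SC Filter Topology

private theorem ha_div : ∀ (m : ℕ) (G0 F0 : ℂ → ℂ) (B : ℝ), Differentiable ℂ G0 →
    (∀ s, s ≠ 1 → G0 s = (s - 1) ^ m * F0 s) →
    (∀ᶠ x : ℝ in 𝓝[>] (0 : ℝ), ‖F0 (1 - (x : ℂ))‖ ≤ B) →
    ∃ G : ℂ → ℂ, Differentiable ℂ G ∧ ∀ s, s ≠ 1 → G s = F0 s := by
  intro m
  induction m with
  | zero =>
    intro G0 F0 B hd h _
    exact ⟨G0, hd, fun s hs => by rw [h s hs, pow_zero, one_mul]⟩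
  | succ m ih =>
    intro G0 F0 B hd h hB
    -- `G0` vanishes at `1`
    have h1 : G0 1 = 0 := by
      have hlim : Tendsto (fun x : ℝ => G0 (1 - (x : ℂ))) (𝓝[>] (0 : ℝ)) (𝓝 (G0 1)) := by
        have h2 : Continuous fun x : ℝ => G0 (1 - (x : ℂ)) :=
          hd.continuous.comp (continuous_const.sub Complex.continuous_ofReal)
        have h3 := h2.tendsto 0
        rw [Complex.ofReal_zero, sub_zero] at h3
        exact h3.mono_left nhdsWithin_le_nhds
      have hlim0 : Tendsto (fun x : ℝ => G0 (1 - (x : ℂ))) (𝓝[>] (0 : ℝ)) (𝓝 0) := by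
        rw [tendsto_zero_iff_norm_tendsto_zero]
        have h4 : Tendsto (fun x : ℝ => x ^ (m + 1) * B) (𝓝[>] (0 : ℝ)) (𝓝 0) := by
          have h5 : Continuous fun x : ℝ => x ^ (m + 1) * B := by fun_prop
          have h6 := h5.tendsto 0
          rw [zero_pow (Nat.succ_ne_zero m), zero_mul] at h6
          exact h6.mono_left nhdsWithin_le_nhds
        refine squeeze_zero' (Eventually.of_forall fun x => norm_nonneg _) ?_ h4
        filter_upwards [hB, self_mem_nhdsWithin] with x hx hx0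
        have hx1 : (1 - (x : ℂ)) ≠ 1 := by
          intro h0
          have h6 : (x : ℂ) = 0 := by linear_combination -h0
          exact (ne_of_gt hx0) (Complex.ofReal_eq_zero.1 h6)
        rw [h _ hx1, norm_mul, norm_pow]
        have h7 : ‖(1 - (x : ℂ)) - 1‖ = x := by
          have : (1 - (x : ℂ)) - 1 = -(x : ℂ) := by ring
          rw [this, norm_neg, Complex.norm_real, Real.norm_eq_abs, abs_of_pos hx0]
        rw [h7]
        exact mul_le_mul_of_nonneg_left hx (pow_nonneg (le_of_lt hx0) _)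
      exact tendsto_nhds_unique hlim hlim0
    have hd1 : Differentiable ℂ (dslope G0 1) := by
      rw [← differentiableOn_univ, Complex.differentiableOn_dslope univ_mem]
      exact hd.differentiableOn
    refine ih (dslope G0 1) F0 B hd1 (fun s hs => ?_) hB
    rw [dslope_of_ne _ hs, slope_def_field, h1, sub_zero, h s hs]
    have h2 : s - 1 ≠ 0 := sub_ne_zero.2 hs
    field_simp
    ring

theorem feq_tw (N : ℝ) (hN : 0 < N) (a : ℕ → ℂ) (F : ℂ → ℂ) (ε : ℂ)
    (hS : IsSelberg a F) (hε : ‖ε‖ = 1)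
    (hfe : ∀ s : ℂ, 0 < s.re → s.re < 1 →
      completed (Real.sqrt N / (2 * Real.pi)) (fun _ : Fin 1 => (1 : ℝ))
          (fun _ => (((1 : ℕ) : ℂ) - 1) / 2) F s =
        ε * (starRingEnd ℂ) (completed (Real.sqrt N / (2 * Real.pi)) (fun _ : Fin 1 => (1 : ℝ))
          (fun _ => (((1 : ℕ) : ℂ) - 1) / 2) F (1 - (starRingEnd ℂ) s))) :
    ∃ G : ℂ → ℂ, FEq (tw a) G (Real.sqrt (4 * N) / (2 * Real.pi)) (fun _ : Fin 1 => (1 : ℝ))
      (fun _ => (((1 : ℕ) : ℂ) - 1) / 2) ε := by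
  obtain ⟨B, hB⟩ := F_near N hN a F ε hS hε hfe
  have hQ2 : Real.sqrt (4 * N) / (2 * Real.pi) = 2 * (Real.sqrt N / (2 * Real.pi)) := by
    rw [Real.sqrt_mul (by norm_num), show (4 : ℝ) = 2 ^ 2 by norm_num, Real.sqrt_sq (by norm_num)]
    ring
  rw [hQ2]
  obtain ⟨Q, hQ⟩ : ∃ Q : ℝ, Q = Real.sqrt N / (2 * Real.pi) := ⟨_, rfl⟩
  obtain ⟨μ, hμ⟩ : ∃ μ : ℂ, μ = (((1 : ℕ) : ℂ) - 1) / 2 := ⟨_, rfl⟩
  have hμ0 : μ = 0 := by rw [hμ]; simp
  have hQ0 : 0 < Q := by
    rw [hQ]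
    exact div_pos (Real.sqrt_pos.2 hN) (by positivity)
  rw [← hQ, ← hμ] at hfe ⊢
  have hcomp : ∀ (R : ℝ) (H : ℂ → ℂ) (s : ℂ),
      completed R (fun _ : Fin 1 => (1 : ℝ)) (fun _ => μ) H s =
        (R : ℂ) ^ s * Complex.Gamma (s + μ) * H s := by
    intro R H s
    unfold completed
    simp
  obtain ⟨m, G0, hG0, ⟨A, C, hAC⟩, hG0F⟩ := hS.continuation
  have hB' : ∀ᶠ x : ℝ in 𝓝[>] (0 : ℝ), ‖(fun s => EE s * F s) (1 - (x : ℂ))‖ ≤ 2 * B := by
    have h2 : ∀ᶠ x : ℝ in 𝓝[>] (0 : ℝ), x < 1 :=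
      (gt_mem_nhds one_pos).filter_mono nhdsWithin_le_nhds
    filter_upwards [hB, h2, self_mem_nhdsWithin] with x hx1 hx2 hx0
    have hx0' : 0 < x := hx0
    rw [norm_mul]
    calc ‖EE (1 - (x : ℂ))‖ * ‖F (1 - (x : ℂ))‖ ≤ (2 * x) * ‖F (1 - (x : ℂ))‖ :=
          mul_le_mul_of_nonneg_right (EE_near x hx0'.le hx2.le) (norm_nonneg _)
      _ = 2 * (x * ‖F (1 - (x : ℂ))‖) := by ring
      _ ≤ 2 * B := mul_le_mul_of_nonneg_left hx1 (by norm_num)
  obtain ⟨G, hG, hGF⟩ := ha_div m (fun s => EE s * G0 s) (fun s => EE s * F s) (2 * B)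
    (EE_diff.mul hG0) (fun s hs => by rw [hG0F s hs]; ring) hB'
  have hne1 : ∀ s : ℂ, s.re < 1 → s ≠ 1 := by
    rintro s hs rfl
    rw [Complex.one_re] at hs
    exact lt_irrefl _ hs
  have hne1' : ∀ s : ℂ, 1 < s.re → s ≠ 1 := by
    rintro s hs rfl
    rw [Complex.one_re] at hs
    exact lt_irrefl _ hs
  have hkey : ∀ s : ℂ, s ≠ 1 → ((2 * Q : ℝ) : ℂ) ^ s * Complex.Gamma (s + μ) * G s =
      ((Q : ℂ) ^ s * Complex.Gamma (s + μ) * F s) * ((2 : ℂ) ^ s * EE s) := by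
    intro s hs
    have h1 : ((2 * Q : ℝ) : ℂ) ^ s = (2 : ℂ) ^ s * (Q : ℂ) ^ s := by
      have h2 := Complex.mul_cpow_ofReal_nonneg (a := 2) (b := Q) (by norm_num) hQ0.le s
      push_cast at h2 ⊢
      exact h2
    rw [h1, hGF s hs]
    ring
  refine ⟨G,
    { diff := hG
      order := ?_
      summable := fun s hs => (tw_L a hS.summable s hs).1
      eqL := fun s hs => ?_
      ram := tw_ram a hS.ramanujan
      one := by rw [tw_odd a 1 (by norm_num)]; exact hS.one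
      Qpos := by positivity
      lampos := fun _ => one_pos
      mure := fun _ => by rw [hμ0]; simp
      eps := hε
      feq := ?_
      deg := by simp
      shift := by simp [hμ0] }⟩
  · obtain ⟨M, hM⟩ := (isCompact_closedBall (0 : ℂ) 3).exists_bound_of_continuousOn
      hG.continuous.continuousOn
    obtain ⟨A', C', h'⟩ := order_mul (max A 0) |C| |M| (le_max_right _ _) (abs_nonneg _)
      (abs_nonneg _)
    refine ⟨A', C', fun s => le_trans ?_ (h' ‖s‖ (norm_nonneg s))⟩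
    have hp : 0 ≤ |C| * Real.exp (‖s‖ ^ max A 0) * (6 * Real.exp (2 * ‖s‖)) := by positivity
    by_cases hs : ‖s‖ ≤ 3
    · have h1 := hM s (by rw [Metric.mem_closedBall, dist_zero_right]; exact hs)
      have h2 := le_abs_self M
      linarith
    · push Not at hs
      have hs1 : s ≠ 1 := by
        rintro rfl
        rw [norm_one] at hs
        linarith
      have hs2 : 1 ≤ ‖s - 1‖ := by
        have h3 := norm_sub_norm_le s 1
        rw [norm_one] at h3
        linarith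
      have h1 : ‖F s‖ ≤ ‖G0 s‖ := by
        rw [hG0F s hs1, norm_mul, norm_pow]
        exact le_mul_of_one_le_left (norm_nonneg _) (one_le_pow₀ hs2)
      have h2 : ‖G0 s‖ ≤ |C| * Real.exp (‖s‖ ^ max A 0) := by
        refine (hAC s).trans ?_
        have h3 : ‖s‖ ^ A ≤ ‖s‖ ^ max A 0 :=
          Real.rpow_le_rpow_of_exponent_le (by linarith) (le_max_left _ _)
        have h4 : Real.exp (‖s‖ ^ A) ≤ Real.exp (‖s‖ ^ max A 0) := Real.exp_le_exp.2 h3
        calc C * Real.exp (‖s‖ ^ A) ≤ |C| * Real.exp (‖s‖ ^ A) :=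
              mul_le_mul_of_nonneg_right (le_abs_self C) (Real.exp_pos _).le
          _ ≤ |C| * Real.exp (‖s‖ ^ max A 0) := mul_le_mul_of_nonneg_left h4 (abs_nonneg _)
      have h5 : ‖G s‖ ≤ (|C| * Real.exp (‖s‖ ^ max A 0)) * (6 * Real.exp (2 * ‖s‖)) := by
        rw [hGF s hs1, norm_mul, mul_comm]
        exact mul_le_mul (h1.trans h2) (EE_norm s) (norm_nonneg _) (by positivity)
      have h6 := abs_nonneg M
      linarith
  · rw [hGF s (hne1' s hs), (tw_L a hS.summable s hs).2, hS.eq_LSeries s hs]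
    rfl
  · intro s h0 h1
    have h2 := hfe s h0 h1
    rw [hcomp, hcomp] at h2 ⊢
    have h3 : (1 - (starRingEnd ℂ) s) ≠ 1 := by
      refine hne1 _ ?_
      rw [Complex.sub_re, Complex.one_re, Complex.conj_re]
      linarith
    rw [hkey s (hne1 s h1), hkey _ h3, h2, EE_sym s]
    rw [map_mul (starRingEnd ℂ)
      ((Q : ℂ) ^ (1 - (starRingEnd ℂ) s) * Complex.Gamma (1 - (starRingEnd ℂ) s + μ) *
        F (1 - (starRingEnd ℂ) s))]
    ring

end Pool.Agent.H97.ICX
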