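import Mathlib
import Pool.Agent.H97.ICX.Ty
import Pool.Agent.H97.ICX.To
import Pool.Agent.H97.ICX.Tt
import Pool.Agent.H97.ICW.Wo
import Pool.Agent.H99.NR.Mn
import Pool.Agent.H11.PC.ASM

/-!
# weight one without the hypothesis `entire`, every real conductor (MP_8e9775_nt)

`entire_one`: a primitive element with the functional equation of weight one and integral coefficients
has no pole. PROOF. Otherwise `feq_tw`: `FEq (tw a) G (sqrt(4N)/2π) ..` with `a = acl 1 A σ`,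
`tw a = acl 1 (tw A) σ`. `N` is rational: given, or `rational_conductor` for `4N` (`tw_int`, `tw_polG`). `orbit_of3` for
`4N`, `GD_dil`, `upD`, `dir_of_DU` (Wo.lean), `odd_bound`, `S_of_T`: `S a x ≤ C log log x` for `x ≥ 16`, against
`Pool.Agent.H11.PC.primitive_fails` (`Q = sqrt N/(2π)`, one factor, `2 ∑ lam = 2`).
-/

set_option autoImplicit false

namespace Pool.Agent.H97.ICX

open Complex NumberField UpperHalfPlane MatrixGroups Pool.Agent.H11.Selberg Pool.Agent.H11.SC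
open Pool.Agent.H13.IC Pool.Agent.H97.ICB Pool.Agent.H97.ICW Pool.Agent.H99.NR

theorem entire_one {L : Type} [Field L] [NumberField L] (σ : L →+* ℂ) (N : ℝ) (hN : 0 < N)
    (A : ℕ → L) (m : ℕ) (hm : 1 ≤ m) (hA : ∀ n, 1 ≤ n → IsIntegral ℤ ((m : L) * A n))
    (hs : PolG A ∨ ((∃ q : ℚ, (q : ℝ) = N) ∧ Sub A)) (F : ℂ → ℂ) (ε : ℂ)
    (hprim : IsPrimitive (acl 1 A σ) F) (hε : ‖ε‖ = 1)
    (hfe : ∀ s : ℂ, 0 < s.re → s.re < 1 →
      completed (Real.sqrt N / (2 * Real.pi)) (fun _ : Fin 1 => (1 : ℝ))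
          (fun _ => (((1 : ℕ) : ℂ) - 1) / 2) F s =
        ε * (starRingEnd ℂ) (completed (Real.sqrt N / (2 * Real.pi))
          (fun _ : Fin 1 => (1 : ℝ)) (fun _ => (((1 : ℕ) : ℂ) - 1) / 2) F
          (1 - (starRingEnd ℂ) s))) :
    ∃ G : ℂ → ℂ, Differentiable ℂ G ∧ ∀ s, s ≠ 1 → G s = F s := by
  by_contra hpole
  have hS := hprim.1
  obtain ⟨G, hG⟩ := feq_tw N hN (acl 1 A σ) F ε hS hε hfe
  rw [tw_acl] at hG
  have hsub : Sub A := by
    rcases hs with h | ⟨-, h⟩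
    · exact sub_of_pol A h
    · exact h
  obtain ⟨q, hq⟩ : ∃ q : ℚ, (q : ℝ) = 4 * N := by
    rcases hs with h | ⟨⟨q, hq⟩, -⟩
    · exact rational_conductor σ 1 le_rfl (4 * N) (by positivity) (tw A) m hm (tw_int A m hA)
        (tw_polG A h) G ε hε hG
    · exact ⟨4 * q, by push_cast; rw [hq]⟩
  have hq0 : 0 < q := by
    have : (0 : ℝ) < (q : ℝ) := by rw [hq]; positivity
    exact_mod_cast this
  rw [← hq] at hG
  have hO := orbit_of3 σ 1 le_rfl q hq0 (tw A) m hm (tw_int A m hA) (tw_sub A hsub) G ε hG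
  have hGD := GD_dil 1 le_rfl q.den q.den_pos (acl 1 (tw A) σ) hG.ram
  obtain ⟨C1, hC1, hup⟩ := upD _ hGD hO
  obtain ⟨C2, hC2, hdir⟩ := dir_of_DU q.den q.den_pos (acl 1 (tw A) σ) C1 hC1 hup
  rw [← tw_acl] at hdir
  obtain ⟨C3, hC3, h3⟩ := odd_bound (acl 1 A σ) F hS C2 hC2 hdir
  have hO' := S_of_T (acl 1 A σ) F hS C3 hC3 h3
  exact Pool.Agent.H11.PC.primitive_fails (acl 1 A σ) F hprim hpole (Real.sqrt N / (2 * Real.pi)) 1
    (fun _ : Fin 1 => (1 : ℝ)) (fun _ => (((1 : ℕ) : ℂ) - 1) / 2) ε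
    (div_pos (Real.sqrt_pos.mpr hN) (by positivity)) (fun _ => one_pos) (fun _ => by simp) hε hfe
    (by simp) hO'

end Pool.Agent.H97.ICX
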