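import Mathlib
import Pool.Agent.H97.ICX.Tz
import Pool.Agent.H99.NR.Mn

/-!
# THEOREM IC, final form: all weights `k ≥ 1`, every real conductor (MP_8e9775_nt)

`main7`: one embedding `σ`, `m A(n)` integral, `σ(A(n)) = a(n) n^((k-1)/2)`, the functional equation of
weight `k ≥ 1` with real `N > 0`, the other conjugates of polynomial growth (or `N` rational and
subexponential growth), `F` primitive if `k = 1`: `N` is rational and `S_F(x) = log log x + O(1)`.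
-/

set_option autoImplicit false

namespace Pool.Agent.H97.ICX

open Complex NumberField UpperHalfPlane MatrixGroups Pool.Agent.H11.Selberg Pool.Agent.H11.SC
open Pool.Agent.H13.IC Pool.Agent.H97.ICB Pool.Agent.H97.ICW Pool.Agent.H99.NR

/-- subexponential growth of all conjugates from that of the others -/
theorem sub_of {L : Type} [Field L] [NumberField L] (σ : L →+* ℂ) (A : ℕ → L) (k : ℕ)
    (hk : 1 ≤ k) (a : ℕ → ℂ)
    (ha : ∀ δ : ℝ, 0 < δ → ∃ C : ℝ, ∀ n : ℕ, 1 ≤ n → ‖a n‖ ≤ C * (n : ℝ) ^ δ)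
    (hA : ∀ n : ℕ, 1 ≤ n → σ (A n) = a n * (n : ℂ) ^ (((k : ℂ) - 1) / 2))
    (hs : ∀ τ : L →+* ℂ, τ ≠ σ → ∀ δ : ℝ, 0 < δ →
      ∃ C : ℝ, ∀ n : ℕ, 1 ≤ n → ‖τ (A n)‖ ≤ C * Real.exp (δ * n)) :
    Sub A := by
  intro τ δ hδ
  have h1 : ∃ C : ℝ, ∀ n : ℕ, 1 ≤ n → ‖τ (A n)‖ ≤ C * Real.exp (δ * n) := by
    by_cases h : τ = σ
    · subst h
      obtain ⟨C, hC⟩ := pol_self τ A k hk a ha hA
      refine ⟨|C| * (((k + 1).factorial : ℝ) * (1 / δ) ^ (k + 1)), fun n hn => (hC n hn).trans ?_⟩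
      have h1 := Real.pow_div_factorial_le_exp (δ * n) (by positivity) (k + 1)
      rw [div_le_iff₀ (by positivity)] at h1
      have h2 : (n : ℝ) ^ (k + 1) = (δ * n) ^ (k + 1) * (1 / δ) ^ (k + 1) := by
        rw [← mul_pow]
        congr 1
        field_simp
      calc C * (n : ℝ) ^ (k + 1) ≤ |C| * (n : ℝ) ^ (k + 1) :=
            mul_le_mul_of_nonneg_right (le_abs_self C) (by positivity)
        _ = |C| * ((δ * n) ^ (k + 1) * (1 / δ) ^ (k + 1)) := by rw [← h2]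
        _ ≤ |C| * ((Real.exp (δ * n) * (k + 1).factorial) * (1 / δ) ^ (k + 1)) := by gcongr
        _ = |C| * (((k + 1).factorial : ℝ) * (1 / δ) ^ (k + 1)) * Real.exp (δ * n) := by ring
    · exact hs τ h δ hδ
  obtain ⟨C, hC⟩ := h1
  refine ⟨|C| + ‖τ (A 0)‖, fun n => ?_⟩
  by_cases hn : n = 0
  · subst hn
    simp only [Nat.cast_zero, mul_zero, Real.exp_zero, mul_one]
    have := abs_nonneg C
    linarith
  · refine (hC n (Nat.one_le_iff_ne_zero.2 hn)).trans ?_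
    refine mul_le_mul_of_nonneg_right ?_ (Real.exp_pos _).le
    have := le_abs_self C
    have := norm_nonneg (τ (A 0))
    linarith

theorem main7 {L : Type} [Field L] [NumberField L] (σ : L →+* ℂ) (A : ℕ → L) (m : ℕ)
    (hm : 1 ≤ m) (hA : ∀ n, 1 ≤ n → IsIntegral ℤ ((m : L) * A n))
    (k : ℕ) (hk : 1 ≤ k) (N : ℝ) (hN : 0 < N)
    (hs : (∀ τ : L →+* ℂ, τ ≠ σ → ∃ (C : ℝ) (c : ℕ), ∀ n : ℕ, 1 ≤ n →
        ‖τ (A n)‖ ≤ C * (n : ℝ) ^ c) ∨
      ((∃ q : ℚ, (q : ℝ) = N) ∧ ∀ τ : L →+* ℂ, τ ≠ σ → ∀ δ : ℝ, 0 < δ →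
        ∃ C : ℝ, ∀ n : ℕ, 1 ≤ n → ‖τ (A n)‖ ≤ C * Real.exp (δ * n)))
    (a : ℕ → ℂ) (F : ℂ → ℂ)
    (hS : IsSelberg a F) (hprim : k = 1 → IsPrimitive a F)
    (ha : ∀ n : ℕ, 1 ≤ n → σ (A n) = a n * (n : ℂ) ^ (((k : ℂ) - 1) / 2)) (ε : ℂ)
    (hε : ‖ε‖ = 1)
    (hfe : ∀ s : ℂ, 0 < s.re → s.re < 1 →
      completed (Real.sqrt N / (2 * Real.pi)) (fun _ : Fin 1 => (1 : ℝ))
          (fun _ => ((k : ℂ) - 1) / 2) F s =
        ε * (starRingEnd ℂ) (completed (Real.sqrt N / (2 * Real.pi))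
          (fun _ : Fin 1 => (1 : ℝ)) (fun _ => ((k : ℂ) - 1) / 2) F
          (1 - (starRingEnd ℂ) s))) :
    (∃ q : ℚ, (q : ℝ) = N) ∧
    ∃ C : ℝ, ∀ x : ℝ, 2 ≤ x → |S a x - Real.log (Real.log x)| ≤ C := by
  by_cases hk2 : 2 ≤ k
  · exact main6 σ A m hm hA k hk2 N hN hs a F hS ha ε hε hfe
  have hk1 : k = 1 := by omega
  subst hk1
  have hP := hprim rfl
  have h1 : ∀ n : ℕ, 1 ≤ n → a n = acl 1 A σ n := by
    intro n hn
    have h0 : (n : ℂ) ≠ 0 := by exact_mod_cast (by omega : n ≠ 0)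
    have h2 : (n : ℂ) ^ ((((1 : ℕ) : ℂ) - 1) / 2) ≠ 0 := by
      rw [Ne, Complex.cpow_eq_zero_iff]
      exact fun h => h0 h.1
    unfold acl
    rw [ha n hn, Complex.cpow_neg, mul_assoc, mul_inv_cancel₀ h2, mul_one]
  have hS' := selberg_congr h1 hS
  have hP' : IsPrimitive (acl 1 A σ) F := ⟨hS', hP.2⟩
  have hs' : PolG A ∨ ((∃ q : ℚ, (q : ℝ) = N) ∧ Sub A) := by
    rcases hs with h | ⟨hq, h⟩
    · exact Or.inl (polG_of σ A 1 le_rfl a hS.ramanujan ha h)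
    · exact Or.inr ⟨hq, sub_of σ A 1 le_rfl a hS.ramanujan ha h⟩
  have hent := entire_one σ N hN A m hm hA hs' F ε hP' hε hfe
  have hsub : Sub A := by
    rcases hs' with h | ⟨-, h⟩
    · exact sub_of_pol A h
    · exact h
  obtain ⟨q, hq⟩ : ∃ q : ℚ, (q : ℝ) = N := by
    rcases hs' with h | ⟨hq, -⟩
    · obtain ⟨G, hG, hGF⟩ := hent
      have hFE := feq_of_entire 1 le_rfl N hN (acl 1 A σ) F ε hS' hε G hG hGF hfe
      exact rational_conductor σ 1 le_rfl N hN A m hm hA h G ε hε hFE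
    · exact hq
  refine ⟨⟨q, hq⟩, ?_⟩
  have hq0 : 0 < q := by
    have : (0 : ℝ) < (q : ℝ) := by rw [hq]; exact hN
    exact_mod_cast this
  rw [← hq] at hfe
  obtain ⟨C, hC⟩ := weight_one σ q hq0 A m hm hA hsub F ε hS' hP' hent hε hfe
  refine ⟨C, fun x hx => ?_⟩
  rw [S_congr h1]
  exact hC x hx

end Pool.Agent.H97.ICX
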